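import Pool.Agent.Lib_helper41.HZF.Fin1
import Pool.Agent.Lib_helper24.KS.Defs

/-!
# Levinson's theorem over number fields (MP_77948b_nt): definitions
-/

namespace Pool.Agent.LVK

open NumberField NumberField.InfinitePlace NumberField.Units Complex MeasureTheory Filter Topology
open Pool.Agent.HZ Pool.Agent.AS Pool.Agent.KS
open scoped ENNReal

variable {K : Type} [Field K] [NumberField K]

/-! ### The family and the counts (final statement) -/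

/-- The data of a Hecke character modulo `𝔮`: infinity type `(κ, lam)`, finite part `χ`, and the
character `ψ` on ideals. -/
structure HDat (𝔮 : Ideal (𝓞 K)) where
  κ : InfinitePlace K → ℤ
  lam : InfinitePlace K → ℝ
  χ : MulChar (𝓞 K ⧸ 𝔮) ℂ
  ψ : Ideal (𝓞 K) →* ℂ

/-- The family of all Hecke characters of conductor exactly `𝔮` with infinity type bounded by `B`,
normalised by `∑ lam = 0` and `κ_w ∈ {0,1}` at the real places. -/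
def Fam (𝔮 : Ideal (𝓞 K)) (B : ℝ) : Set (HDat 𝔮) :=
  {t | IsPrim 𝔮 t.χ ∧ IsHecke 𝔮 t.κ t.lam t.χ t.ψ ∧ ∑ w, t.lam w = 0 ∧
    (∀ w : InfinitePlace K, w.IsReal → t.κ w = 0 ∨ t.κ w = 1) ∧
    ∀ w, |(t.κ w : ℝ)| ≤ B ∧ |t.lam w| ≤ B}

/-- The number of simple zeros `1/2 + it` of `Λ` with `a < t < b`. -/
noncomputable def simpleCritical (Λ : ℂ → ℂ) (a b : ℝ) : ℝ≥0∞ :=
  ({t : ℝ | a < t ∧ t < b ∧ analyticOrderAt Λ (1 / 2 + t * I) = 1}.encard : ℝ≥0∞)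

/-- The number of all zeros `ρ` of `Λ` with `a < Im ρ < b`, counted with multiplicity. -/
noncomputable def allZeros (Λ : ℂ → ℂ) (a b : ℝ) : ℝ≥0∞ :=
  ∑' ρ : {ρ : ℂ // a < ρ.im ∧ ρ.im < b}, (analyticOrderNatAt Λ ρ.1 : ℝ≥0∞)

/-! ### The part of the family with fixed `κ` -/

/-- The Hecke characters of conductor `𝔮` with given `κ` (all `lam`). -/
def FamK (𝔮 : Ideal (𝓞 K)) (κ : InfinitePlace K → ℤ) : Set (HDat 𝔮) :=
  {t | t.κ = κ ∧ IsPrim 𝔮 t.χ ∧ IsHecke 𝔮 t.κ t.lam t.χ t.ψ ∧ ∑ w, t.lam w = 0}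

/-- The Hecke characters of conductor `𝔮` with given `κ` and `|lam| ≤ B`. -/
def FamB (𝔮 : Ideal (𝓞 K)) (κ : InfinitePlace K → ℤ) (B : ℝ) : Set (HDat 𝔮) :=
  {t | t ∈ FamK 𝔮 κ ∧ ∀ w, |t.lam w| ≤ B}

/-- The number of primitive characters modulo `𝔮`. -/
noncomputable def nprim (𝔮 : Ideal (𝓞 K)) : ℝ :=
  (Nat.card {χ : MulChar (𝓞 K ⧸ 𝔮) ℂ // IsPrim 𝔮 χ} : ℝ)

variable (K) in
/-- Class number divided by the number of roots of unity. -/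
noncomputable def hT : ℝ := (classNumber K : ℝ) / torsionOrder K

/-- The unit coordinates of `lam`: `θ_i = ∑_w lam_w log |η_i|_w`. -/
noncomputable def th (lam : InfinitePlace K → ℝ) (i : Fin (rank K)) : ℝ :=
  ∑ w, lam w * Real.log (w ((fundSystem K i : 𝓞 K) : K))

variable (K) in
/-- The set of all `θ(lam)` with `∑ lam = 0`, `|lam| ≤ B`. -/
def ThB (B : ℝ) : Set (Fin (rank K) → ℝ) :=
  {x | ∃ lam : InfinitePlace K → ℝ, ∑ w, lam w = 0 ∧ (∀ w, |lam w| ≤ B) ∧ x = th lam}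

/-! ### Test functions -/

variable (K) in
/-- Test data: a finite combination of translates. -/
structure TD where
  n : ℕ
  c : Fin n → ℂ
  u : Fin n → ℝ
  x : Fin n → (Fin (rank K) → ℝ)

/-- The dual test data. -/
noncomputable def TD.star (T : TD K) : TD K where
  n := T.n
  c := fun j => starRingEnd ℂ (T.c j)
  u := fun j => -T.u j
  x := fun j => -T.x j

variable (K) in
/-- The trivial test data with constant `c`. -/
def TD.triv (c : ℂ) : TD K where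
  n := 1
  c := fun _ => c
  u := fun _ => 0
  x := fun _ => 0

/-- `f_T(y) = ∑_j c_j e^{-u_j/2} G_{κ,0}(y / Y(u_j,x_j))`. -/
noncomputable def fT (κ : InfinitePlace K → ℤ) (T : TD K) (y : InfinitePlace K → ℝ) : ℂ :=
  ∑ j, T.c j * (Real.exp (-(T.u j / 2)) : ℂ) * Gf κ 0 (fun w => y w / Yv K (T.u j) (T.x j) w)

/-- `F_T(y) = f_T(y) ∏_w y_w^{i lam_w}`. -/
noncomputable def FT (κ : InfinitePlace K → ℤ) (lam : InfinitePlace K → ℝ) (T : TD K)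
    (y : InfinitePlace K → ℝ) : ℂ :=
  fT κ T y * cexp (((∑ w, lam w * Real.log (y w) : ℝ) : ℂ) * I)

/-- `P_T(lam, s) = ∑_j c_j e^{i θ_lam(x_j)} e^{(s-1/2) u_j}`. -/
noncomputable def PT (lam : InfinitePlace K → ℝ) (T : TD K) (s : ℂ) : ℂ :=
  ∑ j, T.c j * cexp (((∑ i, th lam i * T.x j i : ℝ) : ℂ) * I) * cexp ((s - 1 / 2) * T.u j)

/-- The kernel `k_T(u) = ∫_x |f_T(Y(u,x))|² dx`. -/
noncomputable def kk (κ : InfinitePlace K → ℤ) (T : TD K) (u : ℝ) : ℝ :=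
  ∫ x : Fin (rank K) → ℝ, ‖fT κ T (Yv K u x)‖ ^ 2

/-- `∫ k_T(u) e^u du`. -/
noncomputable def nrm (κ : InfinitePlace K → ℤ) (T : TD K) : ℝ :=
  ∫ u : ℝ, kk κ T u * Real.exp u

/-- The density of `P_T C₀ Λ(s, ψ)`. -/
noncomputable def DT (κ : InfinitePlace K → ℤ) (lam : InfinitePlace K → ℝ) (T : TD K)
    (ψ : Ideal (𝓞 K) →* ℂ) (u : ℝ) : ℂ := Dser ψ (FT κ lam T) u

/-! ### Mollified densities -/

/-- The density of `(1 + (η/L) d/ds)(P_T C₀ Λ) · M` at the abscissa `1/2`, where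
`M(s) = ∑_{m ∈ S} a_m ψ(m) N m^{-s}`. -/
noncomputable def EM (κ : InfinitePlace K → ℤ) (lam : InfinitePlace K → ℝ) (T : TD K)
    (ψ : Ideal (𝓞 K) →* ℂ) (S : Finset (PK K →₀ ℕ)) (a : (PK K →₀ ℕ) → ℝ) (η L u : ℝ) : ℂ :=
  ∑ m ∈ S, (a m : ℂ) * ψ (IK m) * (((√(nm (NK K) m : ℝ))⁻¹ : ℝ) : ℂ) *
    ((1 + η * (u + lK m) / L : ℝ) : ℂ) * DT κ lam T ψ (u + lK m)

/-- The first term `𝔠 = 1`. -/
noncomputable def E0 (κ : InfinitePlace K → ℤ) (lam : InfinitePlace K → ℝ) (T : TD K)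
    (η L u : ℝ) : ℂ :=
  ((1 + η * u / L : ℝ) : ℂ) * ((Real.exp (u / 2) : ℂ) * kint K (FT κ lam T) u)

/-- The coefficients `b_u(𝔠) = ∑_{m | 𝔠} a_m (1 + η (u + log N m)/L)` (for `𝔠` coprime to `𝔮`). -/
noncomputable def bcf (𝔮 : Ideal (𝓞 K)) (S : Finset (PK K →₀ ℕ)) (a : (PK K →₀ ℕ) → ℝ)
    (η L u : ℝ) (𝔠 : Ideal (𝓞 K)) : ℂ :=
  bn 𝔮 S IK (fun m => ((a m * (1 + η * (u + lK m) / L) : ℝ) : ℂ)) 𝔠

/-- The real coefficient on the semigroup. -/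
noncomputable def bS (S : Finset (PK K →₀ ℕ)) (a : (PK K →₀ ℕ) → ℝ) (η L u : ℝ)
    (g : PK K →₀ ℕ) : ℝ :=
  open scoped Classical in
  ∑ m ∈ S, if m ≤ g then a m * (1 + η * (u + lK m) / L) else 0

/-- The direct diagonal. -/
noncomputable def DIR (k : ℝ → ℝ) (Q : Finset (PK K)) (S : Finset (PK K →₀ ℕ))
    (a : (PK K →₀ ℕ) → ℝ) (η L σ U : ℝ) : ℝ :=
  open scoped Classical in
  ∫ u in Set.Ioi (-U), Real.exp (2 * σ * u) *
    ∑' g : PK K →₀ ℕ, if Cop Q g then bS S a η L u g ^ 2 * k (u + lK g) else 0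

/-- The dual diagonal (`ℓ` is the logarithm of the conductor). -/
noncomputable def DUAL (k : ℝ → ℝ) (Q : Finset (PK K)) (S : Finset (PK K →₀ ℕ))
    (a : (PK K →₀ ℕ) → ℝ) (η L σ U ℓ : ℝ) : ℝ :=
  Real.exp (-ℓ) * ∫ u in Set.Iic (-U), Real.exp ((2 * σ - 2) * u) *
    ∑ m ∈ S, ∑ m' ∈ S, a m * a m' / (nm (NK K) m * nm (NK K) m') *
      (1 + η * (u + lK m) / L) * (1 + η * (u + lK m') / L) *
      WW (NK K) k Q (-u - ℓ - lK (m ⊓ m'))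

/-! ### Primitive characters -/

/-- The ideal `𝔮 / ∏_{p ∈ S} p`. -/
noncomputable def dS (𝔮 : Ideal (𝓞 K)) (S : Finset (PK K)) : Ideal (𝓞 K) :=
  open scoped Classical in
  if h : ∃ 𝔡 : Ideal (𝓞 K), 𝔡 * ∏ p ∈ S, p.asIdeal = 𝔮 then h.choose else ⊤

/-- The number of the characters modulo `𝔮` which are trivial on the units `≡ 1` modulo
`𝔮 / ∏_{p ∈ S} p`. -/
noncomputable def nS (𝔮 : Ideal (𝓞 K)) (S : Finset (PK K)) : ℝ :=
  (Nat.card {χ : MulChar (𝓞 K ⧸ 𝔮) ℂ // ∀ α : 𝓞 K, α - 1 ∈ dS 𝔮 S →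
    IsUnit (Ideal.Quotient.mk 𝔮 α) → χ (Ideal.Quotient.mk 𝔮 α) = 1} : ℝ)

/-! ### The unfolded sums -/

/-- `H_T(y, a) = f_T(y |a|) ∏_w (a_w / |a_w|)^{κ_w}`. -/
noncomputable def Hh (κ : InfinitePlace K → ℤ) (T : TD K) (y : InfinitePlace K → ℝ) (a : K) : ℂ :=
  fT κ T (fun w => y w * w a) * ∏ w : InfinitePlace K, (w.embedding a / (w a : ℂ)) ^ κ w

/-- The phase `e^{i θ_lam · x}`. -/
noncomputable def eth (lam : InfinitePlace K → ℝ) (x : Fin (rank K) → ℝ) : ℂ :=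
  cexp (((∑ i, th lam i * x i : ℝ) : ℂ) * I)

/-! ### The transforms -/

variable (K) in
/-- The constant of `mellin_kint`. -/
noncomputable def C0 : ℝ := (mellin_kint (K := K)).choose

/-- `X(s) = P_T(lam, s) C₀ Λ(s)`. -/
noncomputable def Xf (κ : InfinitePlace K → ℤ) (lam : InfinitePlace K → ℝ) (T : TD K)
    (ψ : Ideal (𝓞 K) →* ℂ) (s : ℂ) : ℂ := PT lam T s * LamD κ lam ψ s

/-- `ĝ(s) = P_T(lam, s) C₀ γ(s)`. -/
noncomputable def gh (κ : InfinitePlace K → ℤ) (lam : InfinitePlace K → ℝ) (T : TD K)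
    (s : ℂ) : ℂ := PT lam T s * (C0 K * gam κ lam s)

/-- The L-function (on `Re s > 0`). -/
noncomputable def Lf (κ : InfinitePlace K → ℤ) (lam : InfinitePlace K → ℝ)
    (ψ : Ideal (𝓞 K) →* ℂ) (s : ℂ) : ℂ := LamD κ lam ψ s / (C0 K * gam κ lam s)

/-- The mollifier. -/
noncomputable def Mf (ψ : Ideal (𝓞 K) →* ℂ) (S : Finset (PK K →₀ ℕ)) (a : (PK K →₀ ℕ) → ℝ)
    (s : ℂ) : ℂ := ∑ m ∈ S, (a m : ℂ) * ψ (IK m) * cexp (-(s * lK m))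

/-! ### Kernels -/

/-- `k_j(u) = ∫_x ∏_w Y_w^{2 j_w} exp(-π n_w Y_w²) dx`. -/
noncomputable def kM (j : InfinitePlace K → ℕ) (u : ℝ) : ℝ :=
  ∫ x : Fin (rank K) → ℝ, ∏ w : InfinitePlace K, (Yv K u x w ^ (2 * j w) *
    Real.exp (-(Real.pi * w.mult * Yv K u x w ^ 2)))

/-- The class of kernels analytic in a strip with Poisson formula up to `O(1)`. -/
def StripK (K : Type) [Field K] [NumberField K] (k : ℂ → ℂ) : Prop :=
  ∃ δ : ℝ, 0 < δ ∧ DifferentiableOn ℂ k {z | |z.im| < δ} ∧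
    (∀ A : ℝ, 0 < A → ∃ C : ℝ, ∀ z : ℂ, |z.im| < δ → ‖k z‖ ≤ C * Real.exp (-(A * z.re))) ∧
    ∃ (ρ : ℂ) (C : ℝ), ∀ z : ℂ, |z.im| < δ →
      ‖∑' g : PK K →₀ ℕ, k (z + lK g) - ρ * cexp (-z)‖ ≤ C

/-- `k(z) = ∫_x exp(-π e^{2z/n} qn(Y(0,x))) dx`, which is `kg K π` on the real line -/
noncomputable def kgC (K : Type) [Field K] [NumberField K] (z : ℂ) : ℂ :=
  ∫ x : Fin (rank K) → ℝ,
    cexp (-(Real.pi * cexp (2 * z / Module.finrank ℚ K) * (qn (Yv K 0 x) : ℝ)))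

/-- `β(g) = |∑_{m ∣ g} a_m| + (1 + log N g)/L ∑_{m ∣ g} |a_m|`. -/
noncomputable def bet (S : Finset (PK K →₀ ℕ)) (a : (PK K →₀ ℕ) → ℝ) (L : ℝ)
    (g : PK K →₀ ℕ) : ℝ :=
  open scoped Classical in
  |∑ m ∈ S, if m ≤ g then a m else 0| + (1 + lK g) / L * ∑ m ∈ S, if m ≤ g then |a m| else 0

/-- `χ` and `(κ, lam)` agree on the units: `χ(ε) ψ_∞(ε) = 1`. -/
def UnitOK (𝔮 : Ideal (𝓞 K)) (κ : InfinitePlace K → ℤ) (lam : InfinitePlace K → ℝ)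
    (χ : MulChar (𝓞 K ⧸ 𝔮) ℂ) : Prop :=
  ∀ ε : (𝓞 K)ˣ, χ (Ideal.Quotient.mk 𝔮 (ε : 𝓞 K)) * psiInf κ lam ((ε : 𝓞 K) : K) = 1

end Pool.Agent.LVK
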