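import Pool.Agent.Lib_helper42.LVK.Defs
import Pool.Agent.Lib_helper92.LVA.Defs
import Pool.Agent.Lib_helper39.LVK.DefsZ

/-!
# Levinson's theorem over number fields (MP_77948b_nt): definitions for the assembly
-/

namespace Pool.Agent.LVK

open NumberField NumberField.InfinitePlace NumberField.Units Complex MeasureTheory Filter Topology
open Pool.Agent.HZ Pool.Agent.AS Pool.Agent.KS
open scoped ENNReal

variable {K : Type} [Field K] [NumberField K]

/-! ### The mollifier of part A as a finite set of elements of the semigroup -/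

/-- The square free element `∏_{p ∈ m} p`. -/
noncomputable def sq (m : Finset (PK K)) : PK K →₀ ℕ := ∑ p ∈ m, Finsupp.single p 1

/-- The support of the mollifier. -/
noncomputable def SM (𝔮 : Ideal (𝓞 K)) (θ L : ℝ) : Finset (PK K →₀ ℕ) :=
  open scoped Classical in
  (LVA.SF (NK K) (QK 𝔮) (θ * L)).image sq

/-- The coefficients of the mollifier. -/
noncomputable def aM (𝔮 : Ideal (𝓞 K)) (b θ R L : ℝ) (g : PK K →₀ ℕ) : ℝ :=
  LVA.am (NK K) b θ R L (QK 𝔮) g.support

/-! ### The data of one character for part Z -/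

open scoped Classical in
/-- A square root of the root number. -/
noncomputable def rt {𝔮 : Ideal (𝓞 K)} (t : HDat 𝔮) : ℂ :=
  if h : ∃ ω : ℂ, ‖ω‖ = 1 ∧ ∀ s : ℂ, LamD t.κ t.lam t.ψ s = ω ^ 2 *
      cexp (-((s - 1 / 2) * Real.log (cond 𝔮))) *
      starRingEnd ℂ (LamD t.κ t.lam t.ψ (1 - starRingEnd ℂ s)) then h.choose else 1

/-- The factor `ω⁻¹ cond^{(s-1/2)/2}`. -/
noncomputable def cf {𝔮 : Ideal (𝓞 K)} (t : HDat 𝔮) (s : ℂ) : ℂ :=
  (rt t)⁻¹ * cexp ((s - 1 / 2) * Real.log (cond 𝔮) / 2)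

/-- The data of one character. -/
noncomputable def ldat {𝔮 : Ideal (𝓞 K)} (b θ R L : ℝ) (t : HDat 𝔮) : LDat where
  ξ := fun s => cf t s * ((C0 K : ℂ)⁻¹ * LamD t.κ t.lam t.ψ s)
  gm := fun s => cf t s * gam t.κ t.lam s
  L := Lf t.κ t.lam t.ψ
  M := Mf t.ψ (SM 𝔮 θ L) (aM 𝔮 b θ R L)

end Pool.Agent.LVK
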